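import Pool.Agent.Y519.CF.Main

set_option autoImplicit false

/-! The closure conjecture for root vectors: all even orders `n = 2 m`, operator `D ^ (2 m)`. -/

namespace Pool.Agent.Y519.CF

open Filter Topology
open Pool.Agent.Results.MP_f3b8e9_an.ConvexClosureFails

section algebra

variable {V : Type} [AddCommGroup V] [Module ℂ V]

/-- if `(S - lam)^M f = 0` and `φ` kills `S^j f` for `j < M`, it kills all `S^q f` -/
lemma kill_all (S : V →ₗ[ℂ] V) (φ : V →ₗ[ℂ] ℂ) (f : V) (lam : ℂ) (M : ℕ)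
    (h1 : ∀ j < M, φ ((S ^ j) f) = 0) (h2 : ((S - lam • (1 : Module.End ℂ V)) ^ M) f = 0) (q : ℕ) :
    φ ((S ^ q) f) = 0 := by
  set P : Polynomial ℂ := (Polynomial.X - Polynomial.C lam) ^ M with hP
  have hm : P.Monic := (Polynomial.monic_X_sub_C lam).pow M
  have hPf : (Polynomial.aeval S P) f = 0 := by
    rw [hP, map_pow, map_sub, Polynomial.aeval_X, Polynomial.aeval_C]
    have : (algebraMap ℂ (Module.End ℂ V)) lam = lam • (1 : Module.End ℂ V) :=
      Algebra.algebraMap_eq_smul_one lam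
    rw [this]; exact h2
  have hmod := Polynomial.modByMonic_add_div (Polynomial.X ^ q : Polynomial ℂ) P
  set r := (Polynomial.X ^ q : Polynomial ℂ) %ₘ P with hr
  have e1 : (S ^ q) f = (Polynomial.aeval S r) f := by
    have e2 : (S ^ q) = Polynomial.aeval S (Polynomial.X ^ q : Polynomial ℂ) := by
      rw [map_pow, Polynomial.aeval_X]
    rw [e2, ← hmod, map_add, LinearMap.add_apply, mul_comm, map_mul, Module.End.mul_apply, hPf,
      map_zero, add_zero]
  have hdeg : r.degree < M := by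
    have h3 := Polynomial.degree_modByMonic_lt (Polynomial.X ^ q : Polynomial ℂ) hm
    have h4 : P.degree = M := by
      rw [hP, Polynomial.degree_pow, Polynomial.degree_X_sub_C, nsmul_one]
    rw [h4] at h3
    exact h3
  rw [e1, Polynomial.aeval_eq_sum_range' (n := M + 1)
    (Nat.lt_succ_of_le (Polynomial.natDegree_le_of_degree_le hdeg.le)), LinearMap.sum_apply, map_sum]
  refine Finset.sum_eq_zero fun j hj => ?_
  rw [LinearMap.smul_apply, map_smul]
  rcases Nat.lt_or_ge j M with h | h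
  · rw [h1 j h, smul_zero]
  · have : r.coeff j = 0 := Polynomial.coeff_eq_zero_of_degree_lt
      (hdeg.trans_le (by exact_mod_cast h))
    rw [this, zero_smul]

end algebra

section

variable {Ω : Set ℂ} (hΩ : IsOpen Ω)

/-- the derivation as a linear map -/
noncomputable def DL : Module.End ℂ (A Ω) where
  toFun := D hΩ
  map_add' := D_add hΩ
  map_smul' := D_smul hΩ

lemma DL_pow (q : ℕ) (f : A Ω) : (DL hΩ ^ q) f = (D hΩ)^[q] f := by
  rw [Module.End.pow_apply]; rfl

/-- the derivation is continuous -/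
lemma D_cont : Continuous (D hΩ) := by
  haveI : LocallyCompactSpace Ω := hΩ.locallyCompactSpace
  rw [continuous_iff_continuousAt]
  intro f
  have h0 : Tendsto (fun g : A Ω => (g.1 : C(Ω, ℂ))) (𝓝 f) (𝓝 f.1) :=
    continuous_subtype_val.tendsto f
  rw [ContinuousMap.tendsto_iff_tendstoLocallyUniformly] at h0
  have h1 : TendstoLocallyUniformlyOn (fun g : A Ω => ext g.1) (ext f.1) (𝓝 f) Ω := by
    rw [tendstoLocallyUniformlyOn_iff_tendstoLocallyUniformly_comp_coe]
    have e1 : (fun (g : A Ω) (x : Ω) => ext g.1 x) = fun (g : A Ω) (x : Ω) => g.1 x := by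
      funext g x
      rw [ext_of_mem _ x.2]
    have e2 : (ext f.1 ∘ ((↑) : Ω → ℂ)) = f.1 := by
      funext x
      change ext f.1 x = _
      rw [ext_of_mem _ x.2]
    rw [e1, e2]
    exact h0
  have h2 := h1.deriv (Filter.Eventually.of_forall fun g : A Ω => g.2) hΩ
  rw [tendstoLocallyUniformlyOn_iff_tendstoLocallyUniformly_comp_coe] at h2
  have h3 : Tendsto (fun g : A Ω => ((D hΩ g).1 : C(Ω, ℂ))) (𝓝 f) (𝓝 (D hΩ f).1) := by
    rw [ContinuousMap.tendsto_iff_tendstoLocallyUniformly]
    exact h2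
  exact tendsto_subtype_rng.2 h3

/-- evaluation of the `q`-th derivative at a point -/
noncomputable def evD (q : ℕ) (z : Ω) : A Ω →L[ℂ] ℂ where
  toFun f := ((D hΩ)^[q] f).1 z
  map_add' f g := by
    rw [← DL_pow, ← DL_pow, ← DL_pow, map_add]; rfl
  map_smul' c f := by
    rw [← DL_pow, ← DL_pow, map_smul]; rfl
  cont := (evalAt z).continuous.comp ((D_cont hΩ).iterate q)

lemma evD_apply (q : ℕ) (z : Ω) (f : A Ω) : evD hΩ q z f = ((D hΩ)^[q] f).1 z := rfl

/-- the `2 m` functionals: derivatives of order `0, 2, ..., 2 m - 2` at `a` and at `b` -/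
noncomputable def phE {a b : ℂ} (ha : a ∈ Ω) (hb : b ∈ Ω) (m : ℕ) : Fin (2 * m) → (A Ω →L[ℂ] ℂ) :=
  fun k => if (k : ℕ) % 2 = 0 then evD hΩ (2 * ((k : ℕ) / 2)) ⟨a, ha⟩
    else evD hΩ (2 * ((k : ℕ) / 2)) ⟨b, hb⟩

lemma phE_a {a b : ℂ} (ha : a ∈ Ω) (hb : b ∈ Ω) (m i : ℕ) (hi : i < m) :
    phE hΩ ha hb m ⟨2 * i, by omega⟩ = evD hΩ (2 * i) ⟨a, ha⟩ := by
  unfold phE
  rw [if_pos (by simp)]
  congr 2
  simp

lemma phE_b {a b : ℂ} (ha : a ∈ Ω) (hb : b ∈ Ω) (m i : ℕ) (hi : i < m) :
    phE hΩ ha hb m ⟨2 * i + 1, by omega⟩ = evD hΩ (2 * i) ⟨b, hb⟩ := by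
  unfold phE
  have h : (2 * i + 1) / 2 = i := by omega
  rw [if_neg (by simp)]
  simp only [h]

lemma ell_even (m : ℕ) (f : A Ω) : ell hΩ (2 * m) (fun _ => 0) f = (DL hΩ ^ (2 * m)) f := by
  have h : ∀ g : A Ω, mulA (0 : A Ω) g = 0 := by
    intro g
    apply A_ext
    intro z hz
    change (0 : ℂ) * g.1 ⟨z, hz⟩ = 0
    ring
  simp only [ell, h, Finset.sum_const_zero, add_zero]
  rw [DL_pow]

lemma ell_even_iter (m q : ℕ) (f : A Ω) :
    (ell hΩ (2 * m) (fun _ => 0))^[q] f = ((DL hΩ ^ (2 * m)) ^ q) f := by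
  rw [Module.End.pow_apply]
  have : ell hΩ (2 * m) (fun _ => 0) = ⇑(DL hΩ ^ (2 * m)) := funext (ell_even hΩ m)
  rw [this]

/-- solutions of constant coefficient equations are entire -/
lemma entire_prod (hcv : Convex ℝ Ω) (h0 : (0 : ℂ) ∈ Ω) (s : Multiset ℂ) :
    ∀ f : A Ω, (Polynomial.aeval (DL hΩ) ((s.map (fun a => Polynomial.X - Polynomial.C a)).prod)) f = 0 →
      IsEntire f := by
  induction s using Multiset.induction with
  | empty =>
    intro f hf
    simp only [Multiset.map_zero, Multiset.prod_zero, map_one, Module.End.one_apply] at hf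
    rw [hf]; exact isEntire_zero
  | cons μ s ih =>
    intro f hf
    rw [Multiset.map_cons, Multiset.prod_cons, mul_comm, map_mul, Module.End.mul_apply] at hf
    have h1 := ih _ hf
    have e : (Polynomial.aeval (DL hΩ) (Polynomial.X - Polynomial.C μ)) f = D hΩ f - μ • f := by
      rw [map_sub, Polynomial.aeval_X, Polynomial.aeval_C, LinearMap.sub_apply,
        Algebra.algebraMap_eq_smul_one, LinearMap.smul_apply, Module.End.one_apply]
      rfl
    rw [e] at h1
    exact entire_step hΩ hcv h0 μ f h1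

/-- Every root vector is periodic with period `2 (b - a)`. -/
lemma root_perE (hcv : Convex ℝ Ω) (h0 : (0 : ℂ) ∈ Ω) {a b : ℂ} (ha : a ∈ Ω) (hb : b ∈ Ω) (m : ℕ)
    (hm : 1 ≤ m)
    (f : A Ω) (hf : IsRootVector hΩ (2 * m) (fun _ => 0) (phE hΩ ha hb m) f) {w w' : ℂ} (hw : w ∈ Ω)
    (hw' : w' ∈ Ω) (hww : w' = w + 2 * (b - a)) :
    f.1 ⟨w', hw'⟩ = f.1 ⟨w, hw⟩ := by
  obtain ⟨-, lam, M, -, hdom, hker⟩ := hf
  have hker2 : (((DL hΩ ^ (2 * m)) - lam • (1 : Module.End ℂ (A Ω))) ^ M) f = 0 := by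
    rw [Module.End.pow_apply]
    have : (fun g => ell hΩ (2 * m) (fun _ => 0) g - lam • g) =
        ⇑((DL hΩ ^ (2 * m)) - lam • (1 : Module.End ℂ (A Ω))) := by
      funext g
      rw [ell_even]
      rfl
    rw [← this]
    exact hker
  have hEnt : IsEntire f := by
    set P : Polynomial ℂ := (Polynomial.X ^ (2 * m) - Polynomial.C lam) ^ M with hP
    have hmon : P.Monic := (Polynomial.monic_X_pow_sub_C lam (by omega)).pow M
    have hPf : (Polynomial.aeval (DL hΩ) P) f = 0 := by
      rw [hP, map_pow, map_sub, map_pow, Polynomial.aeval_X, Polynomial.aeval_C,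
        Algebra.algebraMap_eq_smul_one]
      exact hker2
    have hsp := (IsAlgClosed.splits P).eq_prod_roots_of_monic hmon
    rw [hsp] at hPf
    exact entire_prod hΩ hcv h0 P.roots f hPf
  obtain ⟨G, hG, hGe⟩ := hEnt
  have hall : ∀ (k : Fin (2 * m)) (q : ℕ), phE hΩ ha hb m k (((DL hΩ ^ (2 * m)) ^ q) f) = 0 := by
    intro k q
    refine kill_all (DL hΩ ^ (2 * m)) (phE hΩ ha hb m k).toLinearMap f lam M ?_ hker2 q
    intro j hj
    have := hdom j hj k
    rw [ell_even_iter] at this
    exact this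
  have key : ∀ (p : ℂ) (hp : p ∈ Ω), (∀ i < m, ∀ q,
      evD hΩ (2 * i) ⟨p, hp⟩ (((DL hΩ ^ (2 * m)) ^ q) f) = 0) →
      ∀ z, G (2 * p - z) = - G z := by
    intro p hp hq
    apply odd_of_iteratedDeriv hG
    intro r
    have h1 := hq (r % m) (Nat.mod_lt _ hm) (r / m)
    rw [evD_apply, ← DL_pow, ← pow_mul, ← Module.End.mul_apply, ← pow_add, DL_pow,
      D_iter_apply] at h1
    have e : 2 * (r % m) + 2 * m * (r / m) = 2 * r := by
      have := Nat.mod_add_div r m
      nlinarith
    rw [e] at h1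
    rw [← h1]
    apply Filter.EventuallyEq.iteratedDeriv_eq
    filter_upwards [hΩ.mem_nhds hp] with w hw
    exact (hGe w hw).symm
  have hA := key a ha fun i hi q => by
    rw [← phE_a hΩ ha hb m i hi]; exact hall _ q
  have hB := key b hb fun i hi q => by
    rw [← phE_b hΩ ha hb m i hi]; exact hall _ q
  have e1 := hA w
  have e2 := hB (2 * a - w)
  have e3 : 2 * b - (2 * a - w) = w' := by rw [hww]; ring
  rw [e3, e1, neg_neg] at e2
  have h1 := hGe w hw
  have h2 := hGe w' hw'
  rw [ext_of_mem _ hw] at h1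
  rw [ext_of_mem _ hw'] at h2
  rw [h1, h2, e2]

/-- Every element of the closure of the root vectors is periodic. -/
lemma cl_perE (hcv : Convex ℝ Ω) (h0 : (0 : ℂ) ∈ Ω) {a b : ℂ} (ha : a ∈ Ω) (hb : b ∈ Ω) (m : ℕ)
    (hm : 1 ≤ m)
    (f : A Ω) (hf : f ∈ Cl hΩ (2 * m) (fun _ => 0) (phE hΩ ha hb m)) {w w' : ℂ} (hw : w ∈ Ω)
    (hw' : w' ∈ Ω) (hww : w' = w + 2 * (b - a)) :
    f.1 ⟨w', hw'⟩ = f.1 ⟨w, hw⟩ := by
  have hcl : IsClosed {f : A Ω | evalAt ⟨w', hw'⟩ f = evalAt ⟨w, hw⟩ f} :=
    isClosed_eq (evalAt ⟨w', hw'⟩).continuous (evalAt ⟨w, hw⟩).continuous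
  have hsub : (Submodule.span ℂ {f : A Ω | IsRootVector hΩ (2 * m) (fun _ => 0) (phE hΩ ha hb m) f} :
      Set (A Ω)) ⊆ {f : A Ω | evalAt ⟨w', hw'⟩ f = evalAt ⟨w, hw⟩ f} := by
    intro f hf
    induction hf using Submodule.span_induction with
    | mem x hx => exact root_perE hΩ hcv h0 ha hb m hm x hx hw hw' hww
    | zero => change evalAt _ (0 : A Ω) = evalAt _ (0 : A Ω); rw [map_zero, map_zero]
    | add x y _ _ hx hy =>
      change evalAt _ (x + y) = evalAt _ (x + y)
      rw [map_add, map_add]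
      exact congrArg₂ (· + ·) hx hy
    | smul c x _ hx =>
      change evalAt _ (c • x) = evalAt _ (c • x)
      rw [map_smul, map_smul]
      exact congrArg (c • ·) hx
  exact closure_minimal hsub hcl hf

variable {α β : ℂ}

lemma gg_memE (hT : ∀ z ∈ Ω, α * z + β ∈ Om2) {a b : ℂ} (ha : a ∈ Ω) (hb : b ∈ Ω)
    (hTa : α * a + β = pa) (hTb : α * b + β = pb) (m k : ℕ) :
    gg hT k ∈ DInfty hΩ (2 * m) (fun _ => 0) (phE hΩ ha hb m) := by
  have hbase := gg_mem hΩ hT ha hb hTa hTb k
  have hA : ∀ r, ((D hΩ)^[2 * r] (gg hT k)).1 ⟨a, ha⟩ = 0 := by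
    intro r
    have := hbase r 0
    rw [ell_two', T_iter] at this
    exact this
  have hB : ∀ r, ((D hΩ)^[2 * r] (gg hT k)).1 ⟨b, hb⟩ = 0 := by
    intro r
    have := hbase r 1
    rw [ell_two', T_iter] at this
    exact this
  intro q j
  rw [ell_even_iter]
  have e : ∀ i : ℕ, (D hΩ)^[2 * i] (((DL hΩ ^ (2 * m)) ^ q) (gg hT k)) =
      (D hΩ)^[2 * (i + m * q)] (gg hT k) := by
    intro i
    rw [← DL_pow, ← pow_mul, ← Module.End.mul_apply, ← pow_add, DL_pow]
    congr 2
    ring
  unfold phE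
  split_ifs with h
  · rw [evD_apply, e]; exact hA _
  · rw [evD_apply, e]; exact hB _

lemma gg_indepE (hcv : Convex ℝ Ω) (h0 : (0 : ℂ) ∈ Ω) (hα : α ≠ 0)
    (hT : ∀ z ∈ Ω, α * z + β ∈ Om2) {a b : ℂ} (ha : a ∈ Ω) (hb : b ∈ Ω)
    (hTa : α * a + β = pa) (hTb : α * b + β = pb)
    (hseg : ∀ x : ℝ, 1 ≤ x → x ≤ 3 → (x - Real.pi * Complex.I - β) / α ∈ Ω ∧
      (x + Real.pi * Complex.I - β) / α ∈ Ω) (m : ℕ) (hm : 1 ≤ m) (s : Finset ℕ) (u : ℕ → ℂ)
    (hu : ∑ k ∈ s, u k • gg hT k ∈ Cl hΩ (2 * m) (fun _ => 0) (phE hΩ ha hb m)) :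
    ∀ k ∈ s, u k = 0 := by
  set p : Polynomial ℂ := ∑ k ∈ s, Polynomial.C (u k) * Polynomial.X ^ k with hp
  have hval : ∀ z (hz : z ∈ Ω), (∑ k ∈ s, u k • gg hT k : A Ω).1 ⟨z, hz⟩ =
      p.eval (cc (α * z + β)) * f0 (α * z + β) := by
    intro z hz
    have e1 : (∑ k ∈ s, u k • gg hT k : A Ω).1 ⟨z, hz⟩ = evalAt ⟨z, hz⟩ (∑ k ∈ s, u k • gg hT k) := rfl
    rw [e1, map_sum, hp, Polynomial.eval_finsetSum, Finset.sum_mul]
    refine Finset.sum_congr rfl fun k _ => ?_
    rw [map_smul, evalAt_apply, Polynomial.eval_mul, Polynomial.eval_C, Polynomial.eval_pow,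
      Polynomial.eval_X]
    change u k * gf α β k z = _
    unfold gf
    ring
  have hroot : ∀ x : ℝ, 1 ≤ x → x ≤ 3 → p.eval (-(Real.sinh (x + 1) : ℂ) * Complex.I) = 0 := by
    intro x h1 h3
    obtain ⟨hw, hw'⟩ := hseg x h1 h3
    have hba : b - a = Real.pi * Complex.I / α := by
      have : α * (b - a) = Real.pi * Complex.I := by
        have e : α * (b - a) = pb - pa := by rw [← hTa, ← hTb]; ring
        rw [e]; unfold pa pb; push_cast; ring
      field_simp
      linear_combination this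
    have hww : ((x + Real.pi * Complex.I - β) / α : ℂ) =
        (x - Real.pi * Complex.I - β) / α + 2 * (b - a) := by
      rw [hba]; field_simp; ring
    have h := cl_perE hΩ hcv h0 ha hb m hm _ hu hw hw' hww
    rw [hval, hval] at h
    have e1 : α * ((x - Real.pi * Complex.I - β) / α) + β = x - Real.pi * Complex.I := by
      field_simp; ring
    have e2 : α * ((x + Real.pi * Complex.I - β) / α) + β =
        (x - Real.pi * Complex.I) + 2 * Real.pi * Complex.I := by
      field_simp; ring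
    rw [e1, e2, cc_per, cc_line] at h
    have hre : 0 < ((x : ℂ) - Real.pi * Complex.I).re := by
      simp; linarith
    have hj := f0_jump2 hre
    have h2 : p.eval (-(Real.sinh (x + 1) : ℂ) * Complex.I) * (2 * Real.pi * Complex.I) = 0 := by
      rw [← hj]; linear_combination h
    have h4 : (2 * Real.pi * Complex.I : ℂ) ≠ 0 := by simp [Real.pi_ne_zero]
    exact (mul_eq_zero.mp h2).resolve_right h4
  have hp0 : p = 0 := by
    apply Polynomial.eq_zero_of_infinite_isRoot
    have hinj : Set.InjOn (fun x : ℝ => -(Real.sinh (x + 1) : ℂ) * Complex.I) (Set.Icc 1 3) := by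
      intro x _ y _ hxy
      simp only [mul_eq_mul_right_iff, Complex.I_ne_zero, or_false, neg_inj, Complex.ofReal_inj,
        Real.sinh_inj] at hxy
      linarith
    have hinf : (Set.Icc (1 : ℝ) 3).Infinite := Set.Icc_infinite (by norm_num)
    refine (hinf.image hinj).mono ?_
    rintro _ ⟨x, hx, rfl⟩
    exact hroot x hx.1 hx.2
  intro k hk
  have hc : p.coeff k = u k := by
    rw [hp, Polynomial.finsetSum_coeff]
    simp only [Polynomial.coeff_C_mul, Polynomial.coeff_X_pow]
    rw [Finset.sum_eq_single k]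
    · simp
    · intro j _ hj
      rw [if_neg (fun h => hj h.symm), mul_zero]
    · intro h; exact absurd hk h
  rw [← hc, hp0, Polynomial.coeff_zero]

/-! ### the determinant -/

/-- a polynomial as an element of `A Ω` -/
noncomputable def yP (P : Polynomial ℂ) : A Ω :=
  ofFun (fun z => P.eval z) P.differentiable.differentiableOn

lemma yP_val (P : Polynomial ℂ) (z : Ω) : (yP P : A Ω).1 z = P.eval (z : ℂ) := rfl

lemma D_yP (P : Polynomial ℂ) : D hΩ (yP P) = yP (Polynomial.derivative P) := by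
  apply A_ext
  intro z hz
  change deriv (ext (yP P : A Ω).1) z = (Polynomial.derivative P).eval z
  rw [← Polynomial.deriv]
  apply Filter.EventuallyEq.deriv_eq
  filter_upwards [hΩ.mem_nhds hz] with w hw
  exact ext_ofFun _ _ hw

lemma D_iter_yP (q : ℕ) (P : Polynomial ℂ) :
    (D hΩ)^[q] (yP P) = yP (Polynomial.derivative^[q] P) := by
  induction q generalizing P with
  | zero => rfl
  | succ q ih => rw [Function.iterate_succ_apply, D_yP, ih, Function.iterate_succ_apply]

lemma poly_zero {a b : ℂ} (hab : a ≠ b) (m : ℕ) : ∀ Q : Polynomial ℂ,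
    Polynomial.derivative^[2 * m] Q = 0 →
    (∀ i < m, (Polynomial.derivative^[2 * i] Q).eval a = 0 ∧
      (Polynomial.derivative^[2 * i] Q).eval b = 0) → Q = 0 := by
  induction m with
  | zero => intro Q h _; exact h
  | succ m ih =>
    intro Q h1 h2
    have hQ'' : Polynomial.derivative (Polynomial.derivative Q) = 0 := by
      apply ih
      · have : Polynomial.derivative^[2 * (m + 1)] Q =
            Polynomial.derivative^[2 * m] (Polynomial.derivative (Polynomial.derivative Q)) := by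
          rw [show 2 * (m + 1) = 2 * m + 1 + 1 by ring, Function.iterate_succ_apply,
            Function.iterate_succ_apply]
        rw [← this]; exact h1
      · intro i hi
        have := h2 (i + 1) (by omega)
        rw [show 2 * (i + 1) = 2 * i + 1 + 1 by ring, Function.iterate_succ_apply,
            Function.iterate_succ_apply] at this
        exact this
    have h3 := Polynomial.eq_C_of_derivative_eq_zero hQ''
    set d := (Polynomial.derivative Q).coeff 0 with hd
    have h4 : Polynomial.derivative (Q - Polynomial.C d * Polynomial.X) = 0 := by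
      rw [Polynomial.derivative_sub, Polynomial.derivative_C_mul, Polynomial.derivative_X, mul_one,
        h3, sub_self]
    have h5 := Polynomial.eq_C_of_derivative_eq_zero h4
    set e := (Q - Polynomial.C d * Polynomial.X).coeff 0 with he
    have hQ : Q = Polynomial.C d * Polynomial.X + Polynomial.C e := by rw [← h5]; ring
    obtain ⟨ha, hb⟩ := h2 0 (by omega)
    simp only [mul_zero, Function.iterate_zero, id] at ha hb
    rw [hQ] at ha hb
    simp only [Polynomial.eval_add, Polynomial.eval_mul, Polynomial.eval_C,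
      Polynomial.eval_X] at ha hb
    have h6 : d * (a - b) = 0 := by linear_combination ha - hb
    have hd0 : d = 0 := (mul_eq_zero.mp h6).resolve_right (sub_ne_zero.mpr hab)
    rw [hd0] at ha
    have he0 : e = 0 := by linear_combination ha
    rw [hQ, hd0, he0]
    simp

lemma deltaE (h0 : (0 : ℂ) ∈ Ω) {a b : ℂ} (ha : a ∈ Ω) (hb : b ∈ Ω) (hab : a ≠ b) (m : ℕ) :
    DeltaNeZero hΩ h0 (2 * m) (fun _ => 0) (phE hΩ ha hb m) := by
  set y : Fin (2 * m) → Polynomial ℂ := fun k =>
    Polynomial.C (((k : ℕ).factorial : ℂ)⁻¹) * Polynomial.X ^ (k : ℕ) with hy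
  have hdeg : ∀ k, (y k).natDegree < 2 * m := fun k =>
    (Polynomial.natDegree_C_mul_X_pow_le _ _).trans_lt k.2
  refine ⟨0, fun k => yP (y k), ?_, ?_, ?_⟩
  · intro k
    rw [ell_even, DL_pow, D_iter_yP, Polynomial.iterate_derivative_eq_zero (hdeg k), zero_smul]
    apply A_ext
    intro z hz
    rw [yP_val, Polynomial.eval_zero]
    rfl
  · intro k p
    rw [D_iter_yP, yP_val]
    rw [← Polynomial.coeff_zero_eq_eval_zero, Polynomial.coeff_iterate_derivative, zero_add, hy]
    simp only [Polynomial.coeff_C_mul, Polynomial.coeff_X_pow]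
    by_cases h : k = p
    · subst h
      rw [if_pos rfl, if_pos rfl, mul_one, Nat.descFactorial_self, nsmul_eq_mul]
      exact mul_inv_cancel₀ (by exact_mod_cast (Nat.factorial_ne_zero _))
    · rw [if_neg (fun h' => h (Fin.ext h'.symm)), if_neg h]
      simp
  · intro hdet
    obtain ⟨v, hv, hvM⟩ := Matrix.exists_vecMul_eq_zero_iff.mpr hdet
    apply hv
    set Q : Polynomial ℂ := ∑ k, Polynomial.C (v k) * y k with hQ
    have hsum : ∀ q, (D hΩ)^[q] (yP Q : A Ω) = ∑ k, v k • (D hΩ)^[q] (yP (y k) : A Ω) := by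
      intro q
      have e1 : (yP Q : A Ω) = ∑ k, v k • (yP (y k) : A Ω) := by
        apply A_ext
        intro z hz
        have e2 : (∑ k, v k • (yP (y k) : A Ω) : A Ω).1 ⟨z, hz⟩ =
            evalAt ⟨z, hz⟩ (∑ k, v k • (yP (y k) : A Ω)) := rfl
        rw [e2, map_sum, yP_val, hQ, Polynomial.eval_finsetSum]
        refine Finset.sum_congr rfl fun k _ => ?_
        rw [map_smul, evalAt_apply, yP_val, Polynomial.eval_mul, Polynomial.eval_C, smul_eq_mul]
      rw [e1, ← DL_pow, map_sum]
      refine Finset.sum_congr rfl fun k _ => ?_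
      rw [map_smul, DL_pow]
    have hphi : ∀ j, phE hΩ ha hb m j (yP Q) = 0 := by
      intro j
      have h := congrFun hvM j
      have e1 : (yP Q : A Ω) = ∑ k, v k • (yP (y k) : A Ω) := hsum 0
      rw [e1, map_sum]
      simp only [map_smul]
      have : Matrix.vecMul v (Matrix.of fun k j => phE hΩ ha hb m j (yP (y k))) j =
        ∑ k, v k • phE hΩ ha hb m j (yP (y k)) := rfl
      rw [← this]
      exact h
    have hQ0 : Q = 0 := by
      apply poly_zero hab m
      · apply Polynomial.iterate_derivative_eq_zero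
        rcases Nat.eq_zero_or_pos m with h | h
        · subst h
          exfalso
          apply hv
          funext k
          exact absurd k.2 (by omega)
        · have : Q.natDegree ≤ 2 * m - 1 := by
            rw [hQ]
            apply Polynomial.natDegree_sum_le_of_forall_le
            intro k _
            refine (Polynomial.natDegree_C_mul_le _ _).trans ?_
            have := hdeg k
            omega
          omega
      · intro i hi
        constructor
        · have := hphi ⟨2 * i, by omega⟩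
          rw [phE_a hΩ ha hb m i hi, evD_apply, D_iter_yP] at this
          exact this
        · have := hphi ⟨2 * i + 1, by omega⟩
          rw [phE_b hΩ ha hb m i hi, evD_apply, D_iter_yP] at this
          exact this
    funext k
    have hc : Q.coeff k = v k * (((k : ℕ).factorial : ℂ)⁻¹) := by
      rw [hQ, Polynomial.finsetSum_coeff, Finset.sum_eq_single k]
      · rw [Polynomial.coeff_C_mul, hy]
        simp [Polynomial.coeff_X_pow]
      · intro j _ hj
        rw [Polynomial.coeff_C_mul, hy]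
        simp only [Polynomial.coeff_C_mul, Polynomial.coeff_X_pow]
        rw [if_neg (fun h => hj (Fin.ext h.symm))]
        simp
      · intro h; exact absurd (Finset.mem_univ _) h
    rw [hQ0, Polynomial.coeff_zero] at hc
    have hne : (((k : ℕ).factorial : ℂ)⁻¹) ≠ 0 :=
      inv_ne_zero (by exact_mod_cast (Nat.factorial_ne_zero _))
    exact ((mul_eq_zero.mp hc.symm).resolve_right hne)

end

end Pool.Agent.Y519.CF
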