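import Pool.Agent.Results.MP_f3b8e9_an.ConvexClosureFails

set_option autoImplicit false

/-! The closure conjecture for root vectors: failure with infinite codimension on every domain
which is similar to a domain between two explicit sets, in particular on every disc.
Uses the starting file `ConvexClosureFails` (definitions, the branch `f0`). -/

namespace Pool.Agent.Y519.CF

open Filter Topology
open Pool.Agent.Results.MP_f3b8e9_an.ConvexClosureFails

/-- the domain of analyticity of `f0` used here (not convex) -/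
def Om2 : Set ℂ := {s : ℂ | -2 < s.re ∧ (|s.im| < Real.pi ∨ 0 < s.re)}

lemma f0_diff2 {s : ℂ} (hs : s ∈ Om2) : DifferentiableAt ℂ f0 s := by
  obtain ⟨h1, h2⟩ := hs
  unfold f0
  apply DifferentiableAt.sub
  · exact br_diff h2
  · apply DifferentiableAt.clog (by fun_prop)
    apply Complex.mem_slitPlane_iff.mpr
    left
    have h1 : ‖Complex.exp (-2 - s)‖ < 1 := by
      rw [Complex.norm_exp]; apply Real.exp_lt_one_iff.mpr; simp; linarith
    have h2 := Complex.abs_re_le_norm (Complex.exp (-2 - s))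
    have h3 := (abs_le.mp h2).2
    simp only [Complex.sub_re, Complex.one_re]
    linarith

/-- the even periodic function -/
noncomputable def cc (s : ℂ) : ℂ := Complex.cosh (s - pa)

lemma cc_a (s : ℂ) : cc (2 * pa - s) = cc s := by
  unfold cc
  rw [← Complex.cosh_neg]
  congr 1
  ring

lemma cosh_per (u : ℂ) : Complex.cosh (u + 2 * Real.pi * Complex.I) = Complex.cosh u := by
  unfold Complex.cosh
  have e1 : Complex.exp (u + 2 * Real.pi * Complex.I) = Complex.exp u := by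
    rw [Complex.exp_add, Complex.exp_two_pi_mul_I, mul_one]
  have e2 : Complex.exp (-(u + 2 * Real.pi * Complex.I)) = Complex.exp (-u) := by
    rw [Complex.exp_neg, e1, Complex.exp_neg]
  rw [e1, e2]

lemma cc_b (s : ℂ) : cc (2 * pb - s) = cc s := by
  have h : 2 * pb - s - pa = -(s - pa) + 2 * Real.pi * Complex.I := by
    unfold pa pb; push_cast; ring
  unfold cc
  rw [h, cosh_per, Complex.cosh_neg]

lemma cc_per (s : ℂ) : cc (s + 2 * Real.pi * Complex.I) = cc s := by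
  unfold cc
  rw [show s + 2 * Real.pi * Complex.I - pa = (s - pa) + 2 * Real.pi * Complex.I by ring, cosh_per]

lemma f0_jump2 {s : ℂ} (hs : 0 < s.re) :
    f0 (s + 2 * Real.pi * Complex.I) - f0 s = 2 * Real.pi * Complex.I := by
  have hre : 0 < (s + 2 * Real.pi * Complex.I).re := by simpa using hs
  have e1 : Complex.exp (-(s + 2 * Real.pi * Complex.I)) = Complex.exp (-s) := by
    rw [Complex.exp_neg, Complex.exp_add, Complex.exp_two_pi_mul_I, mul_one, Complex.exp_neg]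
  have e2 : Complex.exp (-2 - (s + 2 * Real.pi * Complex.I)) = Complex.exp (-2 - s) := by
    rw [show -2 - (s + 2 * Real.pi * Complex.I) = -2 + -(s + 2 * Real.pi * Complex.I) by ring,
      Complex.exp_add, e1, ← Complex.exp_add]
    rfl
  unfold f0 br
  rw [if_pos hre, if_pos hs, e1, e2]
  ring

/-- values of `cc` on the line `Im = -π` are pairwise different -/
lemma cc_line (x : ℝ) : cc ((x : ℂ) - Real.pi * Complex.I) = -(Real.sinh (x + 1) : ℂ) * Complex.I := by
  have h : (x : ℂ) - Real.pi * Complex.I - pa = ((x + 1 : ℝ) : ℂ) - ((Real.pi / 2 : ℝ) : ℂ) * Complex.I := by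
    unfold pa; push_cast; ring
  unfold cc
  rw [h, Complex.cosh_sub, Complex.cosh_mul_I, Complex.sinh_mul_I, ← Complex.ofReal_cos,
    ← Complex.ofReal_sin, Real.cos_pi_div_two, Real.sin_pi_div_two, ← Complex.ofReal_sinh]
  simp

section

variable {Ω : Set ℂ} (hΩ : IsOpen Ω)

/-- the two functionals -/
noncomputable def ph {a b : ℂ} (ha : a ∈ Ω) (hb : b ∈ Ω) : Fin 2 → (A Ω →L[ℂ] ℂ) :=
  ![evalAt ⟨a, ha⟩, evalAt ⟨b, hb⟩]

/-- Every root vector is periodic with period `2 (b - a)`. -/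
lemma root_per (hcv : Convex ℝ Ω) (h0 : (0 : ℂ) ∈ Ω) {a b : ℂ} (ha : a ∈ Ω) (hb : b ∈ Ω)
    (f : A Ω) (hf : IsRootVector hΩ 2 (fun _ => 0) (ph ha hb) f) {w w' : ℂ} (hw : w ∈ Ω)
    (hw' : w' ∈ Ω) (hww : w' = w + 2 * (b - a)) :
    f.1 ⟨w', hw'⟩ = f.1 ⟨w, hw⟩ := by
  obtain ⟨-, lam, m, -, hdom, hker⟩ := hf
  rw [ell_two'] at hdom hker
  obtain ⟨G, hG, hGe⟩ := entire_of_iter hΩ hcv h0 lam m f hker
  have key : ∀ (p : ℂ) (hp : p ∈ Ω), (∀ q, evalAt ⟨p, hp⟩ ((T hΩ)^[q] f) = 0) →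
      ∀ z, G (2 * p - z) = - G z := by
    intro p hp hq
    apply odd_of_iteratedDeriv hG
    intro q
    have h1 := hq q
    rw [T_iter, evalAt_apply, D_iter_apply] at h1
    rw [← h1]
    apply Filter.EventuallyEq.iteratedDeriv_eq
    filter_upwards [hΩ.mem_nhds hp] with w hw
    exact (hGe w hw).symm
  have hA := key a ha fun q =>
    root_in_DInfty hΩ (evalAt ⟨a, ha⟩) f lam m (fun j hj => hdom j hj 0) hker q
  have hB := key b hb fun q =>
    root_in_DInfty hΩ (evalAt ⟨b, hb⟩) f lam m (fun j hj => hdom j hj 1) hker q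
  have e1 := hA w
  have e2 := hB (2 * a - w)
  have e3 : 2 * b - (2 * a - w) = w' := by rw [hww]; ring
  rw [e3, e1, neg_neg] at e2
  have h1 := hGe w hw
  have h2 := hGe w' hw'
  rw [ext_of_mem _ hw] at h1
  rw [ext_of_mem _ hw'] at h2
  rw [h1, h2, e2]

/-- Every element of the closure of the root vectors is periodic. -/
lemma cl_per (hcv : Convex ℝ Ω) (h0 : (0 : ℂ) ∈ Ω) {a b : ℂ} (ha : a ∈ Ω) (hb : b ∈ Ω)
    (f : A Ω) (hf : f ∈ Cl hΩ 2 (fun _ => 0) (ph ha hb)) {w w' : ℂ} (hw : w ∈ Ω)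
    (hw' : w' ∈ Ω) (hww : w' = w + 2 * (b - a)) :
    f.1 ⟨w', hw'⟩ = f.1 ⟨w, hw⟩ := by
  have hcl : IsClosed {f : A Ω | evalAt ⟨w', hw'⟩ f = evalAt ⟨w, hw⟩ f} :=
    isClosed_eq (evalAt ⟨w', hw'⟩).continuous (evalAt ⟨w, hw⟩).continuous
  have hsub : (Submodule.span ℂ {f : A Ω | IsRootVector hΩ 2 (fun _ => 0) (ph ha hb) f} :
      Set (A Ω)) ⊆ {f : A Ω | evalAt ⟨w', hw'⟩ f = evalAt ⟨w, hw⟩ f} := by
    intro f hf
    induction hf using Submodule.span_induction with
    | mem x hx => exact root_per hΩ hcv h0 ha hb x hx hw hw' hww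
    | zero => change evalAt _ (0 : A Ω) = evalAt _ (0 : A Ω); rw [map_zero, map_zero]
    | add x y _ _ hx hy =>
      change evalAt _ (x + y) = evalAt _ (x + y)
      rw [map_add, map_add]
      exact congrArg₂ (· + ·) hx hy
    | smul c x _ hx =>
      change evalAt _ (c • x) = evalAt _ (c • x)
      rw [map_smul, map_smul]
      exact congrArg (c • ·) hx
  exact closure_minimal hsub hcl hf

variable {α β : ℂ}

/-- the function `cc^k f0` in the variable `α z + β` -/
noncomputable def gf (α β : ℂ) (k : ℕ) (z : ℂ) : ℂ := cc (α * z + β) ^ k * f0 (α * z + β)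

lemma gf_diff (hT : ∀ z ∈ Ω, α * z + β ∈ Om2) (k : ℕ) : DifferentiableOn ℂ (gf α β k) Ω := by
  intro z hz
  apply DifferentiableAt.differentiableWithinAt
  unfold gf
  apply DifferentiableAt.mul
  · unfold cc
    fun_prop
  · exact DifferentiableAt.comp z (f0_diff2 (hT z hz)) (by fun_prop)

/-- the functions in `D_∞` -/
noncomputable def gg (hT : ∀ z ∈ Ω, α * z + β ∈ Om2) (k : ℕ) : A Ω := ofFun (gf α β k) (gf_diff hT k)

lemma gg_mem (hT : ∀ z ∈ Ω, α * z + β ∈ Om2) {a b : ℂ} (ha : a ∈ Ω) (hb : b ∈ Ω)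
    (hTa : α * a + β = pa) (hTb : α * b + β = pb) (k : ℕ) :
    gg hT k ∈ DInfty hΩ 2 (fun _ => 0) (ph ha hb) := by
  intro q j
  rw [ell_two', T_iter]
  have hcont : ∀ p : ℂ, Tendsto (fun z => α * z + β) (𝓝 p) (𝓝 (α * p + β)) := fun p =>
    (by fun_prop : Continuous fun z : ℂ => α * z + β).tendsto p
  have hnear : ∀ p : ℂ, (α * p + β).re = -1 →
      ∀ᶠ z in 𝓝 p, -2 < (α * z + β).re ∧ (α * z + β).re < 0 := by
    intro p hp
    have hopen : IsOpen {s : ℂ | -2 < s.re ∧ s.re < 0} := by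
      apply IsOpen.and
      · exact isOpen_lt (by fun_prop) (by fun_prop)
      · exact isOpen_lt (by fun_prop) (by fun_prop)
    exact hcont p (hopen.mem_nhds ⟨by rw [hp]; norm_num, by rw [hp]; norm_num⟩)
  have hmem : ∀ (p : ℂ), p ∈ Ω → ∀ᶠ s in 𝓝 p, s ∈ Ω ∧ 2 * p - s ∈ Ω := by
    intro p hp
    have h2 : Tendsto (fun s => 2 * p - s) (𝓝 p) (𝓝 p) := by
      have : Tendsto (fun s => 2 * p - s) (𝓝 p) (𝓝 (2 * p - p)) :=
        (tendsto_const_nhds.sub tendsto_id)
      have e : 2 * p - p = p := by ring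
      rwa [e] at this
    have h3 : ∀ᶠ s in 𝓝 p, s ∈ Ω := hΩ.mem_nhds hp
    have h4 : ∀ᶠ s in 𝓝 p, 2 * p - s ∈ Ω := h2 (hΩ.mem_nhds hp)
    exact h3.and h4
  have hodd : ∀ (p : ℂ) (hp : p ∈ Ω) (hre : (α * p + β).re = -1)
      (ho : ∀ s : ℂ, -2 < s.re → s.re < 0 → f0 (2 * (α * p + β) - s) = - f0 s)
      (hcc : ∀ s : ℂ, cc (2 * (α * p + β) - s) = cc s),
      evalAt ⟨p, hp⟩ ((D hΩ)^[2 * q] (gg hT k)) = 0 := by
    intro p hp hre ho hcc
    rw [evalAt_apply, D_iter_apply]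
    apply iteratedDeriv_of_odd
    filter_upwards [hnear p hre, hmem p hp] with s h1 h2
    have e1 : ext (gg hT k).1 s = gf α β k s := ext_ofFun _ _ h2.1
    have e2 : ext (gg hT k).1 (2 * p - s) = gf α β k (2 * p - s) := ext_ofFun _ _ h2.2
    have e3 : α * (2 * p - s) + β = 2 * (α * p + β) - (α * s + β) := by ring
    rw [e1, e2]
    unfold gf
    rw [e3, ho _ h1.1 h1.2, hcc]
    ring
  fin_cases j
  · refine hodd a ha (by rw [hTa, pa_re]) ?_ ?_
    · rw [hTa]; exact fun s h1 h2 => f0_odd_a h1 h2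
    · rw [hTa]; exact cc_a
  · refine hodd b hb (by rw [hTb, pb_re]) ?_ ?_
    · rw [hTb]; exact fun s h1 h2 => f0_odd_b h1 h2
    · rw [hTb]; exact cc_b

lemma gg_indep (hcv : Convex ℝ Ω) (h0 : (0 : ℂ) ∈ Ω) (hα : α ≠ 0)
    (hT : ∀ z ∈ Ω, α * z + β ∈ Om2) {a b : ℂ} (ha : a ∈ Ω) (hb : b ∈ Ω)
    (hTa : α * a + β = pa) (hTb : α * b + β = pb)
    (hseg : ∀ x : ℝ, 1 ≤ x → x ≤ 3 → (x - Real.pi * Complex.I - β) / α ∈ Ω ∧
      (x + Real.pi * Complex.I - β) / α ∈ Ω) (s : Finset ℕ) (u : ℕ → ℂ)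
    (hu : ∑ k ∈ s, u k • gg hT k ∈ Cl hΩ 2 (fun _ => 0) (ph ha hb)) : ∀ k ∈ s, u k = 0 := by
  set p : Polynomial ℂ := ∑ k ∈ s, Polynomial.C (u k) * Polynomial.X ^ k with hp
  have hval : ∀ z (hz : z ∈ Ω), (∑ k ∈ s, u k • gg hT k : A Ω).1 ⟨z, hz⟩ =
      p.eval (cc (α * z + β)) * f0 (α * z + β) := by
    intro z hz
    have e1 : (∑ k ∈ s, u k • gg hT k : A Ω).1 ⟨z, hz⟩ = evalAt ⟨z, hz⟩ (∑ k ∈ s, u k • gg hT k) := rfl
    rw [e1, map_sum, hp, Polynomial.eval_finset_sum, Finset.sum_mul]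
    refine Finset.sum_congr rfl fun k _ => ?_
    rw [map_smul, evalAt_apply, Polynomial.eval_mul, Polynomial.eval_C, Polynomial.eval_pow,
      Polynomial.eval_X]
    change u k * gf α β k z = _
    unfold gf
    ring
  have hroot : ∀ x : ℝ, 1 ≤ x → x ≤ 3 → p.eval (-(Real.sinh (x + 1) : ℂ) * Complex.I) = 0 := by
    intro x h1 h3
    obtain ⟨hw, hw'⟩ := hseg x h1 h3
    have hba : b - a = Real.pi * Complex.I / α := by
      have : α * (b - a) = Real.pi * Complex.I := by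
        have e : α * (b - a) = pb - pa := by rw [← hTa, ← hTb]; ring
        rw [e]; unfold pa pb; push_cast; ring
      field_simp
      linear_combination this
    have hww : ((x + Real.pi * Complex.I - β) / α : ℂ) =
        (x - Real.pi * Complex.I - β) / α + 2 * (b - a) := by
      rw [hba]; field_simp; ring
    have h := cl_per hΩ hcv h0 ha hb _ hu hw hw' hww
    rw [hval, hval] at h
    have e1 : α * ((x - Real.pi * Complex.I - β) / α) + β = x - Real.pi * Complex.I := by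
      field_simp; ring
    have e2 : α * ((x + Real.pi * Complex.I - β) / α) + β =
        (x - Real.pi * Complex.I) + 2 * Real.pi * Complex.I := by
      field_simp; ring
    rw [e1, e2, cc_per, cc_line] at h
    have hre : 0 < ((x : ℂ) - Real.pi * Complex.I).re := by
      simp; linarith
    have hj := f0_jump2 hre
    have h2 : p.eval (-(Real.sinh (x + 1) : ℂ) * Complex.I) * (2 * Real.pi * Complex.I) = 0 := by
      rw [← hj]; linear_combination h
    have h4 : (2 * Real.pi * Complex.I : ℂ) ≠ 0 := by simp [Real.pi_ne_zero]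
    exact (mul_eq_zero.mp h2).resolve_right h4
  have hp0 : p = 0 := by
    apply Polynomial.eq_zero_of_infinite_isRoot
    have hinj : Set.InjOn (fun x : ℝ => -(Real.sinh (x + 1) : ℂ) * Complex.I) (Set.Icc 1 3) := by
      intro x _ y _ hxy
      simp only [mul_eq_mul_right_iff, Complex.I_ne_zero, or_false, neg_inj, Complex.ofReal_inj,
        Real.sinh_inj] at hxy
      linarith
    have hinf : (Set.Icc (1 : ℝ) 3).Infinite := Set.Icc_infinite (by norm_num)
    refine (hinf.image hinj).mono ?_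
    rintro _ ⟨x, hx, rfl⟩
    exact hroot x hx.1 hx.2
  intro k hk
  have hc : p.coeff k = u k := by
    rw [hp, Polynomial.finset_sum_coeff]
    simp only [Polynomial.coeff_C_mul, Polynomial.coeff_X_pow]
    rw [Finset.sum_eq_single k]
    · simp
    · intro j _ hj
      rw [if_neg (fun h => hj h.symm), mul_zero]
    · intro h; exact absurd hk h
  rw [← hc, hp0, Polynomial.coeff_zero]

lemma delta2 (h0 : (0 : ℂ) ∈ Ω) {a b : ℂ} (ha : a ∈ Ω) (hb : b ∈ Ω) (hab : a ≠ b) :
    DeltaNeZero hΩ h0 2 (fun _ => 0) (ph ha hb) := by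
  have h1 : DifferentiableOn ℂ (fun _ : ℂ => (1 : ℂ)) Ω := differentiableOn_const 1
  have h2 : DifferentiableOn ℂ (fun z : ℂ => z) Ω := differentiableOn_id
  have hD : ∀ (F F' : ℂ → ℂ) (hF : DifferentiableOn ℂ F Ω) (hF' : DifferentiableOn ℂ F' Ω),
      (∀ z ∈ Ω, deriv F z = F' z) → D hΩ (ofFun F hF) = ofFun F' hF' := by
    intro F F' hF hF' hd
    apply A_ext
    intro z hz
    change deriv (ext (ofFun F hF).1) z = F' z
    rw [← hd z hz]
    apply Filter.EventuallyEq.deriv_eq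
    filter_upwards [hΩ.mem_nhds hz] with w hw
    exact ext_ofFun F hF hw
  have h3 : DifferentiableOn ℂ (fun _ : ℂ => (0 : ℂ)) Ω := differentiableOn_const 0
  have hzero : ofFun (fun _ : ℂ => (0 : ℂ)) h3 = (0 : A Ω) := rfl
  have d1 : D hΩ (ofFun _ h1) = 0 := by
    rw [hD _ _ h1 h3 (fun z _ => by simp), hzero]
  have d0 : D hΩ (0 : A Ω) = 0 := by
    nth_rewrite 1 [← hzero]
    rw [hD _ _ h3 h3 (fun z _ => by simp), hzero]
  have d2 : D hΩ (ofFun _ h2) = ofFun _ h1 := hD _ _ h2 h1 (fun z _ => by simp)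
  refine ⟨0, ![ofFun _ h1, ofFun _ h2], ?_, ?_, ?_⟩
  · intro k
    rw [ell_two, zero_smul]
    fin_cases k
    · change D hΩ (D hΩ (ofFun _ h1)) = 0
      rw [d1, d0]
    · change D hΩ (D hΩ (ofFun _ h2)) = 0
      rw [d2, d1]
  · intro k p
    fin_cases k <;> fin_cases p
    · change (1 : ℂ) = if (0 : Fin 2) = 0 then 1 else 0
      simp
    · change (D hΩ (ofFun _ h1)).1 ⟨0, h0⟩ = if (0 : Fin 2) = 1 then 1 else 0
      rw [d1]
      simp only [Fin.isValue, zero_ne_one, if_false]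
      rfl
    · change (0 : ℂ) = if (1 : Fin 2) = 0 then 1 else 0
      simp
    · change (D hΩ (ofFun _ h2)).1 ⟨0, h0⟩ = if (1 : Fin 2) = 1 then 1 else 0
      rw [d2]
      simp only [if_true]
      rfl
  · rw [Matrix.det_fin_two]
    change (1 : ℂ) * b - 1 * a ≠ 0
    rw [one_mul, one_mul]
    exact sub_ne_zero.mpr (Ne.symm hab)

end

end Pool.Agent.Y519.CF
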